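import Pool.Agent.H33.InclDefs

set_option autoImplicit false

namespace Pool.Agent.Results.MP_ea093d_al.Q1

open Pool.Agent.H33.Incl

inductive T (V : Type) (E : V → V → Bool) : Type
  | z : T V E
  | w : T V E
  | v : V → T V E

def mul {V : Type} {E : V → V → Bool} : T V E → T V E → T V E
  | .v a, .v b => if E a b then .w else .z
  | _, _ => .z

lemma mul_cases {V : Type} {E : V → V → Bool} (a b : T V E) : mul a b = .z ∨ mul a b = .w := by
  cases a <;> cases b <;> simp [mul]

lemma mul3 {V : Type} {E : V → V → Bool} (a b c : T V E) : mul (mul a b) c = .z := by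
  rcases mul_cases a b with h | h <;> rw [h] <;> rfl

lemma mul3' {V : Type} {E : V → V → Bool} (a b c : T V E) : mul a (mul b c) = .z := by
  rcases mul_cases b c with h | h <;> rw [h] <;> cases a <;> rfl

instance {V : Type} {E : V → V → Bool} : Semigroup (T V E) where
  mul := mul
  mul_assoc a b c := (mul3 a b c).trans (mul3' a b c).symm

instance {V : Type} {E : V → V → Bool} [Finite V] : Finite (T V E) :=
  Finite.of_surjective (fun o : Option (Option V) => match o with
    | none => (T.z : T V E)
    | some none => T.w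
    | some (some a) => T.v a) (by
      intro t
      cases t with
      | z => exact ⟨none, rfl⟩
      | w => exact ⟨some none, rfl⟩
      | v a => exact ⟨some (some a), rfl⟩)

lemma l1 {V : Type} {E : V → V → Bool} (φ : ℕ → T V E) (x : ℕ) :
    FreeSemigroup.lift φ ⟨x, []⟩ = φ x := rfl

lemma l2 {V : Type} {E : V → V → Bool} (φ : ℕ → T V E) (x y : ℕ) :
    FreeSemigroup.lift φ ⟨x, [y]⟩ = mul (φ x) (φ y) := rfl

lemma l3 {V : Type} {E : V → V → Bool} (φ : ℕ → T V E) (x y t : ℕ) (l : List ℕ) :
    FreeSemigroup.lift φ ⟨x, y :: t :: l⟩ = .z := by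
  have : (⟨x, y :: t :: l⟩ : FreeSemigroup ℕ) = ⟨x, [y]⟩ * ⟨t, l⟩ := rfl
  rw [this, map_mul, l2]
  exact mul3 _ _ _

def ES : Fin 3 → Fin 3 → Bool := fun a b => (a = 0 ∧ b = 1) ∨ (a = 2 ∧ b = 2)

abbrev S : Semigrp.{0} := Semigrp.of (T (Fin 3) ES)

lemma mem_gen {V : Type} (E : V → V → Bool) : Semigrp.of (T V E) ∈ Gen S := by
  rintro ⟨⟨x, l⟩, W⟩ hc φ
  match l with
  | [] =>
    obtain ⟨⟨s, m⟩, hv, h⟩ := hc (fun t => if t = x then T.v 0 else T.z)
    refine ⟨_, hv, ?_⟩
    match m with
    | [] =>
      have h' : (if x = x then (T.v 0 : T (Fin 3) ES) else T.z) = if s = x then T.v 0 else T.z := h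
      by_cases hs : s = x
      · rw [hs]
      · simp [hs] at h'
    | [t] =>
      have h' : (if x = x then (T.v 0 : T (Fin 3) ES) else T.z) = mul _ _ := h
      rcases mul_cases (if s = x then (T.v 0 : T (Fin 3) ES) else T.z)
        (if t = x then T.v 0 else T.z) with e | e <;> simp [e] at h'
    | a :: b :: m =>
      have h' : (if x = x then (T.v 0 : T (Fin 3) ES) else T.z) = _ := h.trans (l3 _ _ _ _ _)
      simp at h'
  | [y] =>
    by_cases hxy : x = y
    · subst hxy
      obtain ⟨⟨s, m⟩, hv, h⟩ := hc (fun t => if t = x then T.v 2 else T.z)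
      refine ⟨_, hv, ?_⟩
      have e : FreeSemigroup.lift (fun t => if t = x then (T.v 2 : T (Fin 3) ES) else T.z)
        ⟨x, [x]⟩ = T.w := by rw [l2]; simp [mul, ES]
      have h0 := e.symm.trans h
      match m with
      | [] =>
        rw [l1] at h0
        by_cases hs : s = x <;> simp [hs] at h0
      | [t] =>
        rw [l2] at h0
        by_cases hs : s = x <;> by_cases ht : t = x <;> simp [hs, ht, mul] at h0
        rw [hs, ht]
      | a :: b :: m =>
        rw [l3] at h0
        simp at h0
    · obtain ⟨⟨s, m⟩, hv, h⟩ := hc (fun t => if t = x then T.v 0 else if t = y then T.v 1 else T.z)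
      refine ⟨_, hv, ?_⟩
      have hyx : ¬ y = x := fun h => hxy h.symm
      have e : FreeSemigroup.lift (fun t => if t = x then (T.v 0 : T (Fin 3) ES) else
        if t = y then T.v 1 else T.z) ⟨x, [y]⟩ = T.w := by rw [l2]; simp [mul, ES, hyx]
      have h0 := e.symm.trans h
      match m with
      | [] =>
        rw [l1] at h0
        by_cases hs : s = x <;> by_cases hs' : s = y <;> simp [hs, hs', hyx] at h0
      | [t] =>
        rw [l2] at h0
        by_cases hs : s = x
        · by_cases ht : t = x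
          · simp [hs, ht, mul, ES] at h0
          · by_cases ht' : t = y
            · rw [hs, ht']
            · simp [hs, ht, ht', mul, ES] at h0
        · by_cases hs' : s = y <;> by_cases ht : t = x <;> by_cases ht' : t = y <;>
            simp [hs, hs', ht, ht', hxy, hyx, mul, ES] at h0
      | a :: b :: m =>
        rw [l3] at h0
        simp at h0
  | y :: t :: l =>
    obtain ⟨⟨s, m⟩, hv, h⟩ := hc (fun _ => T.v 2)
    refine ⟨_, hv, ?_⟩
    have h0 := (l3 (fun _ => (T.v 2 : T (Fin 3) ES)) x y t l).symm.trans h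
    match m with
    | [] => rw [l1] at h0; simp at h0
    | [t] => rw [l2] at h0; simp [mul, ES] at h0
    | a :: b :: m => exact (l3 φ _ _ _ _).trans (l3 φ _ _ _ _).symm

def I (n : ℕ) : Inc := (⟨0, [0, 0]⟩, {v | ∃ i < n, v = ⟨i, [i + 1]⟩})

abbrev P (m : ℕ) : Semigrp.{0} := Semigrp.of (T (Fin (m + 1)) fun a b => decide (a < b))

lemma sat_I (m n : ℕ) : Sat (P m) (I n) ↔ m < n := by
  constructor
  · intro h
    by_contra hn
    obtain ⟨_, ⟨i, hi, rfl⟩, h1⟩ := h (fun t => if ht : t < m + 1 then T.v ⟨t, ht⟩ else T.z)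
    have h0 := (l3 _ _ _ _ _).symm.trans h1
    rw [l2, dif_pos (by omega : i < m + 1), dif_pos (by omega : i + 1 < m + 1)] at h0
    simp [mul] at h0
  · intro h φ
    by_contra hcon
    push Not at hcon
    have h1 : ∀ i < n, ∃ a b : Fin (m + 1), φ i = T.v a ∧ φ (i + 1) = T.v b ∧ a < b := by
      intro i hi
      have := hcon _ ⟨i, hi, rfl⟩
      have h2 : T.z ≠ mul (φ i) (φ (i + 1)) := fun e => this ((l3 φ _ _ _ _).trans e)
      revert h2
      cases φ i <;> cases φ (i + 1) <;> simp [mul]
    have h2 : ∀ i ≤ n, ∃ a : Fin (m + 1), φ i = T.v a ∧ i ≤ a := by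
      intro i
      induction i with
      | zero =>
        intro _
        obtain ⟨a, _, h, -⟩ := h1 0 (by omega)
        exact ⟨a, h, Nat.zero_le _⟩
      | succ i ih =>
        intro hi
        obtain ⟨a, ha, hia⟩ := ih (by omega)
        obtain ⟨a', b, h3, h4, h5⟩ := h1 i (by omega)
        rw [ha] at h3
        cases h3
        exact ⟨b, h4, by have : (a : ℕ) < b := h5; omega⟩
    obtain ⟨a, -, ha⟩ := h2 n le_rfl
    have := a.2
    omega

theorem result : ∃ S : Semigrp.{0}, Finite S ∧
    Set.Infinite {V : Set Semigrp.{0} | (∃ T : Set Inc, V = Models T) ∧ V ⊆ Gen S} := by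
  refine ⟨S, inferInstanceAs (Finite (T (Fin 3) ES)), ?_⟩
  have key : ∀ m n, P m ∈ Models (insert (I n) {c | Sat S c}) ↔ m < n := by
    intro m n
    rw [← sat_I]
    constructor
    · intro h; exact h _ (Set.mem_insert _ _)
    · rintro h c (rfl | hc)
      · exact h
      · exact mem_gen _ c hc
  refine Set.infinite_of_injective_forall_mem
    (f := fun n : ℕ => Models (insert (I n) {c | Sat S c})) ?_ ?_
  · intro a b hab
    have h1 := key a a
    have h2 := key b b
    have h3 := key a b
    have h4 := key b a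
    simp only at hab
    rw [hab] at h1 h4
    rw [h1] at h3
    rw [h2] at h4
    omega
  · intro n
    exact ⟨⟨_, rfl⟩, fun A hA c hc => hA c (Set.mem_insert_of_mem _ hc)⟩

end Pool.Agent.Results.MP_ea093d_al.Q1
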